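import Pool.Agent.H77.PM.Targets

/-!
# pmh_modules, row CLO: closed countable sets in metric spaces.
-/

set_option autoImplicit false

open Set Filter Topology

namespace Pool.Agent.H78.PM

open Pool.Agent.H77.PM

theorem pf_CLO : T_CLO := by
  intro M _ x s
  constructor
  · rintro ⟨ε, hε, h⟩
    refine Metric.isClosed_of_pairwise_le_dist hε ?_
    rintro _ ⟨m, -, rfl⟩ _ ⟨n, -, rfl⟩ hmn
    refine h m n ?_
    rintro rfl
    exact hmn rfl
  · intro p hp
    classical
    have h1 : Tendsto (fun m => if m ∈ s then x m else p) atTop (𝓝 p) := by
      rw [tendsto_nhds] at hp ⊢
      intro U hU hpU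
      filter_upwards [hp U hU hpU] with m hm
      show (if m ∈ s then x m else p) ∈ U
      split_ifs
      · exact hm
      · exact hpU
    have h2 := (h1.isCompact_insert_range).isClosed
    have h3 : insert p (range fun m => if m ∈ s then x m else p) = insert p (x '' s) := by
      ext z
      constructor
      · rintro (h | ⟨m, rfl⟩)
        · exact Or.inl h
        · by_cases hm : m ∈ s
          · right
            refine ⟨m, hm, ?_⟩
            show x m = if m ∈ s then x m else p
            rw [if_pos hm]
          · left
            show (if m ∈ s then x m else p) = p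
            rw [if_neg hm]
      · rintro (h | ⟨m, hm, rfl⟩)
        · exact Or.inl h
        · right
          refine ⟨m, ?_⟩
          show (if m ∈ s then x m else p) = x m
          rw [if_pos hm]
    rw [h3] at h2
    exact h2

end Pool.Agent.H78.PM
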